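import Pool.Agent.H369R3.UT.Defs

/-!
# TaskG2 (helper86): the real trace over complex lines
-/

set_option autoImplicit false

namespace Pool.Agent.H86R4.UT

open Pool.Agent.H369R3.UT Complex

theorem taskG2 : Pool.Agent.H369R3.UT.TaskG2 := by
  intro n A hA
  set c := (EuclideanSpace.basisFun (Fin n) ℂ).toBasis with hc
  set b : Module.Basis (Fin 2 × Fin n) ℝ (Cn n) := Complex.basisOneI.smulTower c with hb
  have h1 : LinearMap.trace ℝ (Cn n) (A : Cn n →ₗ[ℝ] Cn n)
      = ∑ p : Fin 2 × Fin n, b.repr (A (b p)) p := by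
    rw [LinearMap.trace_eq_matrix_trace ℝ b, Matrix.trace]
    refine Finset.sum_congr rfl fun p _ => ?_
    rw [Matrix.diag_apply, LinearMap.toMatrix_apply]
    rfl
  have h2 : ∀ j, b (0, j) = EuclideanSpace.single j (1 : ℂ) := by
    intro j
    rw [hb, Module.Basis.smulTower_apply, hc]
    simp
  have h3 : ∀ j, b (1, j) = Complex.I • EuclideanSpace.single j (1 : ℂ) := by
    intro j
    rw [hb, Module.Basis.smulTower_apply, hc]
    simp
  have h4 : ∀ (x : Cn n) (j : Fin n), b.repr x (0, j) = (x j).re := by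
    intro x j
    rw [hb, Module.Basis.smulTower_repr, hc]
    simp
  have h5 : ∀ (x : Cn n) (j : Fin n), b.repr x (1, j) = (x j).im := by
    intro x j
    rw [hb, Module.Basis.smulTower_repr, hc]
    simp
  have h6 : ∀ (x : Cn n) (j : Fin n), inner ℝ x (EuclideanSpace.single j (1 : ℂ)) = (x j).re := by
    intro x j
    rw [PiLp.inner_apply, Finset.sum_eq_single j]
    · simp [Complex.inner]
    · intro i _ hi
      simp [hi]
    · intro h
      exact absurd (Finset.mem_univ j) h
  have h7 : ∀ (x : Cn n) (j : Fin n),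
      inner ℝ x (Complex.I • EuclideanSpace.single j (1 : ℂ)) = (x j).im := by
    intro x j
    rw [PiLp.inner_apply, Finset.sum_eq_single j]
    · simp [Complex.inner]
    · intro i _ hi
      simp [hi]
    · intro h
      exact absurd (Finset.mem_univ j) h
  rw [h1, Fintype.sum_prod_type, Fin.sum_univ_two, ← Finset.sum_add_distrib]
  calc ∑ j : Fin n, ((b.repr (A (b (0, j)))) (0, j) + (b.repr (A (b (1, j)))) (1, j))
      ≤ ∑ _j : Fin n, (2 : ℝ) := by
        refine Finset.sum_le_sum fun j _ => ?_
        have h8 := hA (EuclideanSpace.single j (1 : ℂ))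
        rw [h6, h7] at h8
        rw [h4, h5, h2, h3]
        simpa using h8
    _ = 2 * n := by simp [mul_comm]

end Pool.Agent.H86R4.UT
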